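import Pool.Agent.Helper75.Slab.FlowGoals

set_option autoImplicit false

/-!
# Packet SLAB-AJ: the velocity gradient along particle paths
-/

open Set Filter Topology MeasureTheory

namespace Pool.Agent.Helper33.Slab

open Pool.Agent.Helper75.Flow

theorem space_inc {t : ℝ} {u : ℝ → E → E} {O : Set E} (hO : IsOpen O)
    (hd : ∀ s ∈ Icc 0 t, ∀ x ∈ O, DifferentiableAt ℝ (u s) x)
    (hc : ContinuousOn (fun z : ℝ × E => fderiv ℝ (u z.1) z.2) (Icc 0 t ×ˢ O))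
    {s : ℝ} (hs : s ∈ Icc 0 t) {x : E} (hx : x ∈ O) {ε : ℝ} (hε : 0 < ε) :
    ∃ δ > 0, ∀ τ ∈ Icc 0 t, |τ - s| < δ → ∀ y, ‖y - x‖ < δ →
      ‖u τ y - u τ x - fderiv ℝ (u s) x (y - x)‖ ≤ ε * ‖y - x‖ := by
  have h1 := Metric.continuousOn_iff.mp hc (s, x) ⟨hs, hx⟩ ε hε
  obtain ⟨δ₁, hδ₁, h1⟩ := h1
  obtain ⟨δ₂, hδ₂, h2⟩ := Metric.isOpen_iff.mp hO x hx
  refine ⟨min δ₁ δ₂, lt_min hδ₁ hδ₂, fun τ hτ hτs y hy => ?_⟩
  have hsub : Metric.ball x (min δ₁ δ₂) ⊆ O :=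
    (Metric.ball_subset_ball (min_le_right _ _)).trans h2
  apply Convex.norm_image_sub_le_of_norm_hasFDerivWithin_le'
    (f := u τ) (f' := fun z => fderiv ℝ (u τ) z) (s := Metric.ball x (min δ₁ δ₂))
  · intro z hz
    exact (hd τ hτ z (hsub hz)).hasFDerivAt.hasFDerivWithinAt
  · intro z hz
    have h3 := h1 (τ, z) ⟨hτ, hsub hz⟩ (by
      rw [Prod.dist_eq, max_lt_iff]
      refine ⟨?_, ?_⟩
      · rw [Real.dist_eq]; exact lt_of_lt_of_le hτs (min_le_left _ _)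
      · exact lt_of_lt_of_le (Metric.mem_ball.mp hz) (min_le_left _ _))
    rw [dist_eq_norm] at h3
    exact h3.le
  · exact convex_ball _ _
  · exact Metric.mem_ball_self (lt_min hδ₁ hδ₂)
  · rw [Metric.mem_ball, dist_eq_norm]; exact hy

theorem step1 {t K : ℝ} {u g φ : ℝ → E → E} {O : Set E}
    (hE : EulerOn t K u g O) (hφ : IsFlow t u φ) (hOφ : ∀ X ∈ O, ∀ s ∈ Icc 0 t, φ s X ∈ O)
    {X : E} (hX : X ∈ O) {s : ℝ} (hs : s ∈ Icc 0 t) :
    HasDerivWithinAt (fun τ => u τ (φ τ X)) (-(g s (φ s X))) (Icc 0 t) s := by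
  obtain ⟨-, -, hO, hd, hc, -, -, -, -, -, htime⟩ := hE
  set x := φ s X with hx
  have hxO : x ∈ O := hOφ X hX s hs
  set A := fderiv ℝ (u s) x with hA
  have hy : HasDerivWithinAt (fun τ => φ τ X) (u s x) (Icc 0 t) s := hφ.2 X s hs
  have hyc : Tendsto (fun τ => φ τ X) (𝓝[Icc 0 t] s) (𝓝 x) := hy.continuousWithinAt
  -- the remainder
  have hR : HasDerivWithinAt (fun τ => u τ (φ τ X) - u τ x - A (φ τ X - x)) 0 (Icc 0 t) s := by
    rw [hasDerivWithinAt_iff_isLittleO]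
    have h1 : (fun τ => u τ (φ τ X) - u τ x - A (φ τ X - x)) =o[𝓝[Icc 0 t] s]
        (fun τ => φ τ X - x) := by
      rw [Asymptotics.isLittleO_iff]
      intro ε hε
      obtain ⟨δ, hδ, h2⟩ := space_inc hO hd hc hs hxO hε
      have h3 : ∀ᶠ τ in 𝓝[Icc 0 t] s, ‖φ τ X - x‖ < δ := by
        have := hyc.eventually (Metric.ball_mem_nhds x hδ)
        filter_upwards [this] with τ hτ
        rw [← dist_eq_norm]; exact hτ
      have h4 : ∀ᶠ τ in 𝓝[Icc 0 t] s, |τ - s| < δ := by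
        have : ∀ᶠ τ in 𝓝 s, τ ∈ Metric.ball s δ := Metric.ball_mem_nhds s hδ
        filter_upwards [nhdsWithin_le_nhds this] with τ hτ
        rw [← Real.dist_eq]; exact hτ
      filter_upwards [h3, h4, self_mem_nhdsWithin] with τ h5 h6 h7
      exact h2 τ h7 h6 _ h5
    have h2 : (fun τ => φ τ X - x) =O[𝓝[Icc 0 t] s] (fun τ => τ - s) := by
      have h3 := hasDerivWithinAt_iff_isLittleO.mp hy
      have h4 : (fun τ => (τ - s) • u s x) =O[𝓝[Icc 0 t] s] (fun τ => τ - s) := by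
        apply Asymptotics.IsBigO.of_bound ‖u s x‖
        refine Eventually.of_forall fun τ => ?_
        rw [norm_smul, mul_comm]
      have h5 := h3.isBigO.add h4
      refine h5.congr_left fun τ => ?_
      simp only [hx]; abel
    have h3 := h1.trans_isBigO h2
    refine h3.congr_left fun τ => ?_
    simp only [← hx, sub_self, map_zero, smul_zero, sub_zero]
  have hA1 : HasDerivWithinAt (fun τ => A (φ τ X - x)) (A (u s x)) (Icc 0 t) s :=
    A.hasFDerivAt.comp_hasDerivWithinAt s (hy.sub_const x)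
  have h := (hR.add hA1).add (htime s hs x hxO)
  have e1 : (0 : E) + A (u s x) + (-(fderiv ℝ (u s) x (u s x)) - g s x) = -(g s x) := by
    rw [hA]; abel
  rw [e1] at h
  refine h.congr_of_mem (fun τ _ => ?_) hs
  simp only [Pi.add_apply]
  abel

theorem step2 {t K : ℝ} {u g φ : ℝ → E → E} {O : Set E}
    (hE : EulerOn t K u g O) (hφ : IsFlow t u φ) (hOφ : ∀ X ∈ O, ∀ s ∈ Icc 0 t, φ s X ∈ O)
    {X : E} (hX : X ∈ O) {s : ℝ} (hs : s ∈ Icc 0 t) :
    u s (φ s X) = u 0 X - ∫ r in (0 : ℝ)..s, g r (φ r X) := by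
  have hgc : ContinuousOn (fun r => g r (φ r X)) (Icc 0 t) := by
    have h1 : ContinuousOn (fun r => ((r, φ r X) : ℝ × E)) (Icc 0 t) :=
      continuousOn_id.prodMk (fun r hr => (hφ.2 X r hr).continuousWithinAt)
    exact hE.2.2.2.2.2.2.2.1.comp h1 (fun r hr => ⟨hr, hOφ X hX r hr⟩)
  have hsub : Icc 0 s ⊆ Icc 0 t := Icc_subset_Icc_right hs.2
  have h1 : ∫ r in (0 : ℝ)..s, -(g r (φ r X)) = u s (φ s X) - u 0 (φ 0 X) := by
    apply intervalIntegral.integral_eq_sub_of_hasDerivAt_of_le (f := fun τ => u τ (φ τ X)) hs.1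
    · intro r hr
      exact (step1 hE hφ hOφ hX (hsub hr)).continuousWithinAt.mono hsub
    · intro r hr
      exact (step1 hE hφ hOφ hX (hsub ⟨hr.1.le, hr.2.le⟩)).hasDerivAt
        (Icc_mem_nhds hr.1 (hr.2.trans_le hs.2))
    · apply ContinuousOn.intervalIntegrable
      rw [uIcc_of_le hs.1]
      exact (hgc.mono hsub).neg
  rw [intervalIntegral.integral_neg, hφ.1 X] at h1
  calc u s (φ s X) = u 0 X + (u s (φ s X) - u 0 X) := by abel
    _ = u 0 X - ∫ r in (0 : ℝ)..s, g r (φ r X) := by rw [← h1]; abel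

/-- the integrand of the derivative -/
noncomputable def H (g φ : ℝ → E → E) (J : ℝ → E → E →L[ℝ] E) (r : ℝ) (X : E) : E →L[ℝ] E :=
  (fderiv ℝ (g r) (φ r X)).comp (J r X)

theorem H_cont {t K : ℝ} {u g φ : ℝ → E → E} {O : Set E} {J : ℝ → E → E →L[ℝ] E}
    (hE : EulerOn t K u g O) (hOφ : ∀ X ∈ O, ∀ s ∈ Icc 0 t, φ s X ∈ O)
    (hφc : ContinuousOn (fun z : ℝ × E => φ z.1 z.2) (Icc 0 t ×ˢ univ))
    (hJc : ContinuousOn (fun z : ℝ × E => J z.1 z.2) (Icc 0 t ×ˢ O)) :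
    ContinuousOn (fun z : ℝ × E => H g φ J z.1 z.2) (Icc 0 t ×ˢ O) := by
  have h1 : ContinuousOn (fun z : ℝ × E => ((z.1, φ z.1 z.2) : ℝ × E)) (Icc 0 t ×ˢ O) :=
    continuousOn_fst.prodMk (hφc.mono (prod_mono_right (subset_univ O)))
  have h2 : ContinuousOn (fun z : ℝ × E => fderiv ℝ (g z.1) (φ z.1 z.2)) (Icc 0 t ×ˢ O) :=
    hE.2.2.2.2.2.2.2.2.1.comp h1 (fun z hz => ⟨hz.1, hOφ z.2 hz.2 z.1 hz.1⟩)
  exact h2.clm_comp hJc

theorem step3 {t K : ℝ} {u g φ : ℝ → E → E} {O : Set E} {J : ℝ → E → E →L[ℝ] E}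
    (hE : EulerOn t K u g O) (hφ : IsFlow t u φ) (hOφ : ∀ X ∈ O, ∀ s ∈ Icc 0 t, φ s X ∈ O)
    (hJ : IsJac t u φ O J)
    (hφc : ContinuousOn (fun z : ℝ × E => φ z.1 z.2) (Icc 0 t ×ˢ univ))
    (hJc : ContinuousOn (fun z : ℝ × E => J z.1 z.2) (Icc 0 t ×ˢ O))
    {X : E} (hX : X ∈ O) {s : ℝ} (hs : s ∈ Icc 0 t) :
    (fderiv ℝ (u s) (φ s X)).comp (J s X) =
      fderiv ℝ (u 0) X - ∫ r in (0 : ℝ)..s, H g φ J r X := by
  obtain ⟨ht, -, hO, hd, -, -, hgd, hgc, -, -, -⟩ := id hE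
  have h0 : (0 : ℝ) ∈ Icc 0 t := ⟨le_rfl, ht⟩
  have hsub : Icc 0 s ⊆ Icc 0 t := Icc_subset_Icc_right hs.2
  obtain ⟨ρ, hρ, hball⟩ := Metric.nhds_basis_closedBall.mem_iff.mp (hO.mem_nhds hX)
  have hHc := H_cont hE hOφ hφc hJc
  have hcomp : IsCompact (Icc 0 t ×ˢ Metric.closedBall X ρ) :=
    isCompact_Icc.prod (isCompact_closedBall X ρ)
  obtain ⟨C, hC⟩ := hcomp.exists_bound_of_continuousOn
    (hHc.mono (prod_mono_right hball))
  -- measurability
  have hline : ∀ Y ∈ O, ContinuousOn (fun r => H g φ J r Y) (Icc 0 t) := fun Y hY =>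
    hHc.comp (continuousOn_id.prodMk continuousOn_const) (fun r hr => ⟨hr, hY⟩)
  have hgline : ∀ Y ∈ O, ContinuousOn (fun r => g r (φ r Y)) (Icc 0 t) := fun Y hY => by
    have h1 : ContinuousOn (fun r => ((r, φ r Y) : ℝ × E)) (Icc 0 t) :=
      continuousOn_id.prodMk (fun r hr => (hφ.2 Y r hr).continuousWithinAt)
    exact hgc.comp h1 (fun r hr => ⟨hr, hOφ Y hY r hr⟩)
  have hΙ : Set.uIoc 0 s ⊆ Icc 0 t := by
    rw [uIoc_of_le hs.1]; exact Ioc_subset_Icc_self.trans hsub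
  have hD : HasFDerivAt (fun Y => ∫ r in (0 : ℝ)..s, g r (φ r Y))
      (∫ r in (0 : ℝ)..s, H g φ J r X) X := by
    apply intervalIntegral.hasFDerivAt_integral_of_dominated_of_fderiv_le
      (F := fun Y r => g r (φ r Y)) (F' := fun Y r => H g φ J r Y) (bound := fun _ => C)
      (s := Metric.closedBall X ρ) (Metric.closedBall_mem_nhds X hρ)
    · filter_upwards [hO.mem_nhds hX] with Y hY
      exact ((hgline Y hY).mono hΙ).aestronglyMeasurable measurableSet_uIoc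
    · apply ContinuousOn.intervalIntegrable
      rw [uIcc_of_le hs.1]
      exact (hgline X hX).mono hsub
    · exact ((hline X hX).mono hΙ).aestronglyMeasurable measurableSet_uIoc
    · refine Eventually.of_forall fun r hr Y hY => ?_
      exact hC (r, Y) ⟨hΙ hr, hY⟩
    · exact intervalIntegrable_const
    · refine Eventually.of_forall fun r hr Y hY => ?_
      have hYO : Y ∈ O := hball hY
      have h1 : HasFDerivAt (g r) (fderiv ℝ (g r) (φ r Y)) (φ r Y) :=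
        (hgd r (hΙ hr) _ (hOφ Y hYO r (hΙ hr))).hasFDerivAt
      exact h1.comp Y ((hJ Y hYO).2 r (hΙ hr)).1
  have hL : HasFDerivAt (fun Y => u s (φ s Y)) ((fderiv ℝ (u s) (φ s X)).comp (J s X)) X :=
    ((hd s hs _ (hOφ X hX s hs)).hasFDerivAt).comp X ((hJ X hX).2 s hs).1
  have hR : HasFDerivAt (fun Y => u 0 Y - ∫ r in (0 : ℝ)..s, g r (φ r Y))
      (fderiv ℝ (u 0) X - ∫ r in (0 : ℝ)..s, H g φ J r X) X :=
    ((hd 0 h0 X hX).hasFDerivAt).sub hD
  have hR' : HasFDerivAt (fun Y => u s (φ s Y))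
      (fderiv ℝ (u 0) X - ∫ r in (0 : ℝ)..s, H g φ J r X) X := by
    refine hR.congr_of_eventuallyEq ?_
    filter_upwards [hO.mem_nhds hX] with Y hY
    exact step2 hE hφ hOφ hY hs
  exact hL.unique hR'

theorem thm (FL2 : G_FL2) : G_AJ := by
  intro t K u g φ O J hE hφ hOφ hJ hJc X hX s hs
  have ht : 0 ≤ t := hE.1
  have hφc := (FL2 t K u φ ht hE.2.1 hφ).2.1
  have hHc := H_cont hE hOφ hφc hJc
  have hline : ContinuousOn (fun r => H g φ J r X) (Icc 0 t) :=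
    hHc.comp (continuousOn_id.prodMk continuousOn_const) (fun r hr => ⟨hr, hX⟩)
  set Ht : ℝ → E →L[ℝ] E := fun r => H g φ J (projIcc 0 t ht r) X with hHt
  have hHtc : Continuous Ht := by
    have := hline.comp_continuous (continuous_subtype_val.comp continuous_projIcc)
      (fun r => (projIcc 0 t ht r).2)
    exact this
  have heq : ∀ r ∈ Icc 0 t, Ht r = H g φ J r X := by
    intro r hr
    simp only [hHt, projIcc_of_mem ht hr]
  have hder : HasDerivAt (fun τ => fderiv ℝ (u 0) X - ∫ r in (0 : ℝ)..τ, Ht r) (-(Ht s)) s := by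
    have h1 := (hHtc.integral_hasStrictDerivAt 0 s).hasDerivAt
    exact h1.const_sub (fderiv ℝ (u 0) X)
  have h2 := hder.hasDerivWithinAt (s := Icc 0 t)
  rw [heq s hs] at h2
  refine h2.congr_of_mem (fun τ hτ => ?_) hs
  rw [step3 hE hφ hOφ hJ hφc hJc hX hτ]
  congr 1
  apply intervalIntegral.integral_congr
  intro r hr
  rw [uIcc_of_le hτ.1] at hr
  exact (heq r ⟨hr.1, hr.2.trans hτ.2⟩).symm

end Pool.Agent.Helper33.Slab
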